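import Pool.Agent.Q191.RR.Sub

/-!
# Abstract versions: an orbit following a prescribed word; passing to exponentials
-/

set_option autoImplicit false
set_option linter.unusedVariables false

open Set Filter Topology

namespace Pool.Agent.Q191.RR

/-- an orbit following the word `wd` -/
theorem exists_word {Z : ℝ → ℕ → ℝ} {S : ℝ → ℕ → Prop} {len : Bool → ℕ} {lft rgt : Bool → ℝ}
    (hc : ∀ n, Continuous (fun s => Z s n)) (hlr : ∀ i, lft i ≤ rgt i)
    (h0 : ∀ s, lft (wd 0) ≤ s → s ≤ rgt (wd 0) → S s 0)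
    (h1 : ∀ s, Z s 1 = s)
    (hS : ∀ s n i, S s n → lft i ≤ Z s (n + 1) → Z s (n + 1) ≤ rgt i → S s (n + len i))
    (hl : ∀ s n i j, S s n → Z s (n + 1) = lft i → Z s (n + len i + 1) ≤ lft j)
    (hr : ∀ s n i j, S s n → Z s (n + 1) = rgt i → rgt j ≤ Z s (n + len i + 1)) :
    ∃ s, ∀ m, S s (tim len wd m) ∧ lft (wd m) ≤ Z s (tim len wd m + 1) ∧
      Z s (tim len wd m + 1) ≤ rgt (wd m) := by
  let R : ℕ → ℝ × ℝ → Prop := fun m p => p.1 ≤ p.2 ∧
    (∀ s ∈ Icc p.1 p.2, S s (tim len wd m) ∧ lft (wd m) ≤ Z s (tim len wd m + 1) ∧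
      Z s (tim len wd m + 1) ≤ rgt (wd m)) ∧
    Z p.1 (tim len wd m + 1) = lft (wd m) ∧ Z p.2 (tim len wd m + 1) = rgt (wd m)
  have R0 : R 0 (lft (wd 0), rgt (wd 0)) := by
    refine ⟨hlr _, fun s hs => ⟨h0 s hs.1 hs.2, ?_, ?_⟩, ?_, ?_⟩
    · show _ ≤ Z s 1
      rw [h1]; exact hs.1
    · show Z s 1 ≤ _
      rw [h1]; exact hs.2
    · exact h1 _
    · exact h1 _
  have step : ∀ (m : ℕ) (p : {p : ℝ × ℝ // R m p}),
      ∃ q : {q : ℝ × ℝ // R (m + 1) q}, p.1.1 ≤ q.1.1 ∧ q.1.2 ≤ p.1.2 := by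
    rintro m ⟨p, hle, hSS, hpl, hpr⟩
    have e : tim len wd (m + 1) = tim len wd m + len (wd m) := rfl
    obtain ⟨a', b', h1, h2, h3, h4, h5, h6⟩ := sub_cross
      (φ := fun s => Z s (tim len wd (m + 1) + 1)) (a := p.1) (b := p.2)
      (l := lft (wd (m + 1))) (r := rgt (wd (m + 1)))
      (hc _).continuousOn hle (hlr _)
      (by
        show Z p.1 (tim len wd (m + 1) + 1) ≤ _
        rw [e]
        exact hl _ _ _ _ (hSS p.1 ⟨le_rfl, hle⟩).1 hpl)
      (by
        show _ ≤ Z p.2 (tim len wd (m + 1) + 1)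
        rw [e]
        exact hr _ _ _ _ (hSS p.2 ⟨hle, le_rfl⟩).1 hpr)
    refine ⟨⟨(a', b'), ⟨h2, fun s hs => ⟨?_, ?_⟩, h4, h5⟩⟩, h1, h3⟩
    · rw [e]
      have := hSS s ⟨h1.trans hs.1, hs.2.trans h3⟩
      exact hS _ _ _ this.1 this.2.1 this.2.2
    · exact h6 s hs
  choose f hf1 hf2 using step
  let I : ∀ m, {p : ℝ × ℝ // R m p} := fun m => Nat.rec ⟨_, R0⟩ (fun m p => f m p) m
  have hI : ∀ m, I (m + 1) = f m (I m) := fun m => rfl
  obtain ⟨s, hs⟩ := IsCompact.nonempty_iInter_of_sequence_nonempty_isCompact_isClosed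
    (fun m => Icc (I m).1.1 (I m).1.2)
    (fun m => by
      apply Icc_subset_Icc
      · rw [hI]; exact hf1 m (I m)
      · rw [hI]; exact hf2 m (I m))
    (fun m => nonempty_Icc.2 (I m).2.1) isCompact_Icc (fun m => isClosed_Icc)
  rw [mem_iInter] at hs
  exact ⟨s, fun m => (I m).2.2.1 s (hs m)⟩

/-- passing from logarithms to the sequence itself -/
theorem exp_nonper {x : ℕ → ℝ} {b M : ℝ} (hb : 0 < b) (hM : ∀ n, |x n| ≤ M)
    (hnp : ∀ k, 1 ≤ k → ¬ Tendsto (fun n => x (n + k) - x n) atTop (𝓝 0)) :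
    ∀ p : ℕ → ℝ, (∃ k, 1 ≤ k ∧ ∀ n, p (n + k) = p n) →
        ¬ Tendsto (fun n => Real.exp (b * x n) - p n) atTop (𝓝 0) := by
  rintro p ⟨k, hk, hp⟩ ht
  apply hnp k hk
  -- the difference of consecutive periods tends to zero
  have h1 : Tendsto (fun n => Real.exp (b * x (n + k)) - Real.exp (b * x n)) atTop (𝓝 0) := by
    have h2 := (ht.comp (tendsto_add_atTop_nat k)).sub ht
    rw [sub_zero] at h2
    refine h2.congr fun n => ?_
    simp only [Function.comp]
    rw [hp n]
    ring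
  -- pass to logarithms
  have h3 : ∀ n, |x (n + k) - x n| ≤
      (Real.exp (b * M) / b) * |Real.exp (b * x (n + k)) - Real.exp (b * x n)| := by
    have key : ∀ u v : ℝ, |u| ≤ M → |v| ≤ M → u ≤ v →
        v - u ≤ (Real.exp (b * M) / b) * (Real.exp (b * v) - Real.exp (b * u)) := by
      intro u v hu hv huv
      have hu' := (abs_le.1 hu).1
      have e1 : Real.exp (b * v) - Real.exp (b * u) =
          Real.exp (b * u) * (Real.exp (b * (v - u)) - 1) := by
        rw [mul_sub, ← Real.exp_add]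
        congr 2
        · ring
        · ring
      have e2 : b * (v - u) ≤ Real.exp (b * (v - u)) - 1 := by
        have := Real.add_one_le_exp (b * (v - u))
        linarith
      have e3 : 1 ≤ Real.exp (b * M) * Real.exp (b * u) := by
        rw [← Real.exp_add]
        apply Real.one_le_exp
        nlinarith
      have e4 : 0 ≤ b * (v - u) := mul_nonneg hb.le (by linarith)
      rw [e1, div_mul_eq_mul_div, le_div_iff₀ hb]
      calc (v - u) * b = 1 * (b * (v - u)) := by ring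
        _ ≤ (Real.exp (b * M) * Real.exp (b * u)) * (Real.exp (b * (v - u)) - 1) :=
          mul_le_mul e3 e2 e4 (by positivity)
        _ = _ := by ring
    intro n
    rcases le_total (x n) (x (n + k)) with hle | hle
    · have := key _ _ (hM n) (hM (n + k)) hle
      rw [abs_of_nonneg (by linarith), abs_of_nonneg]
      · exact this
      · have : Real.exp (b * x n) ≤ Real.exp (b * x (n + k)) := Real.exp_le_exp.2 (by gcongr)
        linarith
    · have := key _ _ (hM (n + k)) (hM n) hle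
      rw [abs_of_nonpos (by linarith), abs_of_nonpos]
      · linarith
      · have : Real.exp (b * x (n + k)) ≤ Real.exp (b * x n) := Real.exp_le_exp.2 (by gcongr)
        linarith
  rw [tendsto_zero_iff_abs_tendsto_zero]
  refine squeeze_zero (fun n => abs_nonneg _) h3 ?_
  have h4 := (h1.abs).const_mul (Real.exp (b * M) / b)
  rw [abs_zero, mul_zero] at h4
  exact h4

end Pool.Agent.Q191.RR
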