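import Pool.Agent.Q191.RR.Abs

/-!
# An orbit following a prescribed word when the blocks reverse orientation
-/

set_option autoImplicit false
set_option linter.unusedVariables false

open Set Filter Topology

namespace Pool.Agent.Q191.RR

/-- a continuous function crossing `[l, r]` in either direction does so on a subinterval -/
theorem sub_cross' {φ : ℝ → ℝ} {a b l r : ℝ} (hφ : ContinuousOn φ (Icc a b)) (hab : a ≤ b)
    (hlr : l ≤ r) (h : (φ a ≤ l ∧ r ≤ φ b) ∨ (r ≤ φ a ∧ φ b ≤ l)) :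
    ∃ a' b', a ≤ a' ∧ a' ≤ b' ∧ b' ≤ b ∧ ((φ a' = l ∧ φ b' = r) ∨ (φ a' = r ∧ φ b' = l)) ∧
      ∀ s ∈ Icc a' b', l ≤ φ s ∧ φ s ≤ r := by
  rcases h with ⟨h1, h2⟩ | ⟨h1, h2⟩
  · obtain ⟨a', b', e1, e2, e3, e4, e5, e6⟩ := sub_cross hφ hab hlr h1 h2
    exact ⟨a', b', e1, e2, e3, Or.inl ⟨e4, e5⟩, e6⟩
  · obtain ⟨a', b', e1, e2, e3, e4, e5, e6⟩ := sub_cross (φ := fun s => -φ s) (l := -r) (r := -l)
      hφ.neg hab (by linarith) (by linarith) (by linarith)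
    refine ⟨a', b', e1, e2, e3, Or.inr ⟨neg_inj.1 e4, neg_inj.1 e5⟩, fun s hs => ?_⟩
    have := e6 s hs
    constructor <;> linarith [this.1, this.2]

/-- an orbit following the word `wd`, for orientation reversing blocks -/
theorem exists_word_dec {Z : ℝ → ℕ → ℝ} {S : ℝ → ℕ → Prop} {len : Bool → ℕ} {lft rgt : Bool → ℝ}
    (hc : ∀ n, Continuous (fun s => Z s n)) (hlr : ∀ i, lft i ≤ rgt i)
    (h0 : ∀ s, lft (wd 0) ≤ s → s ≤ rgt (wd 0) → S s 0)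
    (h1 : ∀ s, Z s 1 = s)
    (hS : ∀ s n i, S s n → lft i ≤ Z s (n + 1) → Z s (n + 1) ≤ rgt i → S s (n + len i))
    (hl : ∀ s n i j, S s n → Z s (n + 1) = lft i → rgt j ≤ Z s (n + len i + 1))
    (hr : ∀ s n i j, S s n → Z s (n + 1) = rgt i → Z s (n + len i + 1) ≤ lft j) :
    ∃ s, ∀ m, S s (tim len wd m) ∧ lft (wd m) ≤ Z s (tim len wd m + 1) ∧
      Z s (tim len wd m + 1) ≤ rgt (wd m) := by
  let R : ℕ → ℝ × ℝ → Prop := fun m p => p.1 ≤ p.2 ∧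
    (∀ s ∈ Icc p.1 p.2, S s (tim len wd m) ∧ lft (wd m) ≤ Z s (tim len wd m + 1) ∧
      Z s (tim len wd m + 1) ≤ rgt (wd m)) ∧
    ((Z p.1 (tim len wd m + 1) = lft (wd m) ∧ Z p.2 (tim len wd m + 1) = rgt (wd m)) ∨
      (Z p.1 (tim len wd m + 1) = rgt (wd m) ∧ Z p.2 (tim len wd m + 1) = lft (wd m)))
  have R0 : R 0 (lft (wd 0), rgt (wd 0)) := by
    refine ⟨hlr _, fun s hs => ⟨h0 s hs.1 hs.2, ?_, ?_⟩, Or.inl ⟨?_, ?_⟩⟩
    · show _ ≤ Z s 1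
      rw [h1]; exact hs.1
    · show Z s 1 ≤ _
      rw [h1]; exact hs.2
    · exact h1 _
    · exact h1 _
  have step : ∀ (m : ℕ) (p : {p : ℝ × ℝ // R m p}),
      ∃ q : {q : ℝ × ℝ // R (m + 1) q}, p.1.1 ≤ q.1.1 ∧ q.1.2 ≤ p.1.2 := by
    rintro m ⟨p, hle, hSS, hp⟩
    have e : tim len wd (m + 1) = tim len wd m + len (wd m) := rfl
    obtain ⟨a', b', h1, h2, h3, h4, h6⟩ := sub_cross'
      (φ := fun s => Z s (tim len wd (m + 1) + 1)) (a := p.1) (b := p.2)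
      (l := lft (wd (m + 1))) (r := rgt (wd (m + 1)))
      (hc _).continuousOn hle (hlr _)
      (by
        have s1 := (hSS p.1 ⟨le_rfl, hle⟩).1
        have s2 := (hSS p.2 ⟨hle, le_rfl⟩).1
        rcases hp with ⟨hpl, hpr⟩ | ⟨hpl, hpr⟩
        · exact Or.inr ⟨hl _ _ _ _ s1 hpl, hr _ _ _ _ s2 hpr⟩
        · exact Or.inl ⟨hr _ _ _ _ s1 hpl, hl _ _ _ _ s2 hpr⟩)
    refine ⟨⟨(a', b'), ⟨h2, fun s hs => ⟨?_, ?_⟩, h4⟩⟩, h1, h3⟩
    · rw [e]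
      have := hSS s ⟨h1.trans hs.1, hs.2.trans h3⟩
      exact hS _ _ _ this.1 this.2.1 this.2.2
    · exact h6 s hs
  choose f hf1 hf2 using step
  let I : ∀ m, {p : ℝ × ℝ // R m p} := fun m => Nat.rec ⟨_, R0⟩ (fun m p => f m p) m
  have hI : ∀ m, I (m + 1) = f m (I m) := fun m => rfl
  obtain ⟨s, hs⟩ := IsCompact.nonempty_iInter_of_sequence_nonempty_isCompact_isClosed
    (fun m => Icc (I m).1.1 (I m).1.2)
    (fun m => by
      apply Icc_subset_Icc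
      · rw [hI]; exact hf1 m (I m)
      · rw [hI]; exact hf2 m (I m))
    (fun m => nonempty_Icc.2 (I m).2.1) isCompact_Icc (fun m => isClosed_Icc)
  rw [mem_iInter] at hs
  exact ⟨s, fun m => (I m).2.2.1 s (hs m)⟩

end Pool.Agent.Q191.RR
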