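import Pool.Agent.Q191.RR.Moves

/-!
# Blocks: a long excursion followed by three or two short ones
-/

set_option autoImplicit false
set_option linter.unusedVariables false

namespace Pool.Agent.Q191.RR

variable {b γ D ε : ℝ} (h : Par b γ D ε) {x : ℕ → ℝ} (hx : Orb b γ D x)

/-- the section -/
def Sec (ε : ℝ) (x : ℕ → ℝ) (n : ℕ) : Prop := |x (n + 2)| ≤ ε ∧ -3 ≤ x n ∧ x n ≤ -1

/-- length of the block -/
def len : Bool → ℕ
  | false => 22
  | true => 19

/-- left end of the interval -/
noncomputable def lft : Bool → ℝ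
  | false => 943 / 1000
  | true => 923 / 1000

/-- right end of the interval -/
noncomputable def rgt : Bool → ℝ
  | false => 953 / 1000
  | true => 933 / 1000

/-- translation part of the block -/
noncomputable def cst : Bool → ℝ
  | false => 38 / 10
  | true => 37 / 10

/-- times of events in a block -/
def ev : Bool → ℕ → Prop
  | false, j => j = 0 ∨ j = 13 ∨ j = 16 ∨ j = 19
  | true, j => j = 0 ∨ j = 13 ∨ j = 16

include h hx

theorem block (hε : 0 ≤ ε) (hε' : ε ≤ 1 / 1000000) (n : ℕ) (i : Bool) (hS : Sec ε x n)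
    (h1 : lft i ≤ x (n + 1)) (h2 : x (n + 1) ≤ rgt i) :
    Sec ε x (n + len i) ∧
    (5 * x (n + 1) - cst i - 2 / 1000 ≤ x (n + len i + 1) ∧
      x (n + len i + 1) ≤ 5 * x (n + 1) - cst i + 2 / 1000) ∧
    (∀ j, j < len i → |x (n + 2 + j)| ≤ 3) ∧
    (∀ j, j < len i → ev i j → |x (n + 2 + j)| ≤ 1 / 100) ∧
    (∀ j, j < len i → ¬ ev i j → 3 / 100 ≤ |x (n + 2 + j)|) := by
  obtain ⟨hu, hw1, hw2⟩ := hS
  have hlr : 92 / 100 ≤ x (n + 1) ∧ x (n + 1) ≤ 956 / 1000 := by
    cases i
    · simp only [lft, rgt] at h1 h2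
      constructor <;> linarith
    · simp only [lft, rgt] at h1 h2
      constructor <;> linarith
  obtain ⟨⟨a1, a1'⟩, ⟨a2, a2'⟩, ⟨a3, a3'⟩, ⟨a4, a4'⟩, ⟨a5, a5'⟩, ⟨a6, a6'⟩, ⟨a7, a7'⟩, ⟨a8, a8'⟩,
    ⟨a9, a9'⟩, ⟨a10, a10'⟩, ⟨a11, a11'⟩, ⟨a12, a12'⟩, a13⟩ :=
    long h hx hε hε' n hu hlr.1 hlr.2 hw1 hw2
  cases i
  · simp only [lft, rgt] at h1 h2
    obtain ⟨b1, b1', b2, b2', b3⟩ := short h hx hε hε' (n + 13) a13
      (by show _ ≤ x (n + 14); linarith) (by show x (n + 14) ≤ _; linarith) (by linarith)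
      (by linarith)
    have b1 : -3 ≤ x (n + 16) := b1
    have b1' : x (n + 16) ≤ -1 := b1'
    have b2 : x (n + 14) - 1 / 10 - 2 * ε ≤ x (n + 17) := b2
    have b2' : x (n + 17) ≤ x (n + 14) - 1 / 10 + 2 * ε := b2'
    have b3 : |x (n + 18)| ≤ ε := b3
    obtain ⟨c1, c1', c2, c2', c3⟩ := short h hx hε hε' (n + 16) b3
      (by show _ ≤ x (n + 17); linarith) (by show x (n + 17) ≤ _; linarith) (by linarith)
      (by linarith)
    have c1 : -3 ≤ x (n + 19) := c1
    have c1' : x (n + 19) ≤ -1 := c1'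
    have c2 : x (n + 17) - 1 / 10 - 2 * ε ≤ x (n + 20) := c2
    have c2' : x (n + 20) ≤ x (n + 17) - 1 / 10 + 2 * ε := c2'
    have c3 : |x (n + 21)| ≤ ε := c3
    obtain ⟨d1, d1', d2, d2', d3⟩ := short h hx hε hε' (n + 19) c3
      (by show _ ≤ x (n + 20); linarith) (by show x (n + 20) ≤ _; linarith) (by linarith)
      (by linarith)
    have d1 : -3 ≤ x (n + 22) := d1
    have d1' : x (n + 22) ≤ -1 := d1'
    have d2 : x (n + 20) - 1 / 10 - 2 * ε ≤ x (n + 23) := d2
    have d2' : x (n + 23) ≤ x (n + 20) - 1 / 10 + 2 * ε := d2'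
    have d3 : |x (n + 24)| ≤ ε := d3
    refine ⟨⟨d3, d1, d1'⟩, ⟨?_, ?_⟩, ?_, ?_, ?_⟩
    · show 5 * x (n + 1) - 38 / 10 - 2 / 1000 ≤ x (n + 23)
      linarith
    · show x (n + 23) ≤ 5 * x (n + 1) - 38 / 10 + 2 / 1000
      linarith
    · intro j hj
      rw [show len false = 22 from rfl] at hj
      have hu' : |x (n + 2)| ≤ 3 := by linarith
      have e13 : |x (n + 15)| ≤ 3 := by linarith
      have e16 : |x (n + 18)| ≤ 3 := by linarith
      have e19 : |x (n + 21)| ≤ 3 := by linarith
      interval_cases j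
      · exact hu'
      · exact abs_le.2 ⟨a1, by show x (n + 3) ≤ 3; linarith⟩
      · exact abs_le.2 ⟨by show -3 ≤ x (n + 4); linarith, a2'⟩
      · exact abs_le.2 ⟨by show -3 ≤ x (n + 5); linarith, a3'⟩
      · exact abs_le.2 ⟨a4, by show x (n + 6) ≤ 3; linarith⟩
      · exact abs_le.2 ⟨by show -3 ≤ x (n + 7); linarith, a5'⟩
      · exact abs_le.2 ⟨by show -3 ≤ x (n + 8); linarith, a6'⟩
      · exact abs_le.2 ⟨a7, by show x (n + 9) ≤ 3; linarith⟩
      · exact abs_le.2 ⟨by show -3 ≤ x (n + 10); linarith, a8'⟩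
      · exact abs_le.2 ⟨by show -3 ≤ x (n + 11); linarith, a9'⟩
      · exact abs_le.2 ⟨a10, by show x (n + 12) ≤ 3; linarith⟩
      · exact abs_le.2 ⟨a11, by show x (n + 13) ≤ 3; linarith⟩
      · exact abs_le.2 ⟨by show -3 ≤ x (n + 14); linarith, by show x (n + 14) ≤ 3; linarith⟩
      · exact e13
      · exact abs_le.2 ⟨b1, by show x (n + 16) ≤ 3; linarith⟩
      · exact abs_le.2 ⟨by show -3 ≤ x (n + 17); linarith, by show x (n + 17) ≤ 3; linarith⟩
      · exact e16
      · exact abs_le.2 ⟨c1, by show x (n + 19) ≤ 3; linarith⟩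
      · exact abs_le.2 ⟨by show -3 ≤ x (n + 20); linarith, by show x (n + 20) ≤ 3; linarith⟩
      · exact e19
      · exact abs_le.2 ⟨d1, by show x (n + 22) ≤ 3; linarith⟩
      · exact abs_le.2 ⟨by show -3 ≤ x (n + 23); linarith, by show x (n + 23) ≤ 3; linarith⟩
    · intro j hj hev
      rcases hev with rfl | rfl | rfl | rfl
      · show |x (n + 2)| ≤ _; linarith
      · show |x (n + 15)| ≤ _; linarith
      · show |x (n + 18)| ≤ _; linarith
      · show |x (n + 21)| ≤ _; linarith
    · intro j hj hev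
      rw [show len false = 22 from rfl] at hj
      have hev' : ¬ (j = 0 ∨ j = 13 ∨ j = 16 ∨ j = 19) := hev
      interval_cases j
      · simp at hev'
      · exact (by rw [abs_of_neg (by show x (n + 3) < 0; linarith)]; show _ ≤ - x (n + 3); linarith)
      · exact (by rw [abs_of_pos (by show 0 < x (n + 4); linarith)]; show _ ≤ x (n + 4); linarith)
      · exact (by rw [abs_of_pos (by show 0 < x (n + 5); linarith)]; show _ ≤ x (n + 5); linarith)
      · exact (by rw [abs_of_neg (by show x (n + 6) < 0; linarith)]; show _ ≤ - x (n + 6); linarith)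
      · exact (by rw [abs_of_pos (by show 0 < x (n + 7); linarith)]; show _ ≤ x (n + 7); linarith)
      · exact (by rw [abs_of_pos (by show 0 < x (n + 8); linarith)]; show _ ≤ x (n + 8); linarith)
      · exact (by rw [abs_of_neg (by show x (n + 9) < 0; linarith)]; show _ ≤ - x (n + 9); linarith)
      · exact (by rw [abs_of_pos (by show 0 < x (n + 10); linarith)]; show _ ≤ x (n + 10); linarith)
      · exact (by rw [abs_of_pos (by show 0 < x (n + 11); linarith)]; show _ ≤ x (n + 11); linarith)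
      · exact (by rw [abs_of_neg (by show x (n + 12) < 0; linarith)]; show _ ≤ - x (n + 12); linarith)
      · exact (by rw [abs_of_neg (by show x (n + 13) < 0; linarith)]; show _ ≤ - x (n + 13); linarith)
      · exact (by rw [abs_of_pos (by show 0 < x (n + 14); linarith)]; show _ ≤ x (n + 14); linarith)
      · simp at hev'
      · exact (by rw [abs_of_neg (by show x (n + 16) < 0; linarith)]; show _ ≤ - x (n + 16); linarith)
      · exact (by rw [abs_of_pos (by show 0 < x (n + 17); linarith)]; show _ ≤ x (n + 17); linarith)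
      · simp at hev'
      · exact (by rw [abs_of_neg (by show x (n + 19) < 0; linarith)]; show _ ≤ - x (n + 19); linarith)
      · exact (by rw [abs_of_pos (by show 0 < x (n + 20); linarith)]; show _ ≤ x (n + 20); linarith)
      · simp at hev'
      · exact (by rw [abs_of_neg (by show x (n + 22) < 0; linarith)]; show _ ≤ - x (n + 22); linarith)
      · exact (by rw [abs_of_pos (by show 0 < x (n + 23); linarith)]; show _ ≤ x (n + 23); linarith)
  · simp only [lft, rgt] at h1 h2
    obtain ⟨b1, b1', b2, b2', b3⟩ := short h hx hε hε' (n + 13) a13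
      (by show _ ≤ x (n + 14); linarith) (by show x (n + 14) ≤ _; linarith) (by linarith)
      (by linarith)
    have b1 : -3 ≤ x (n + 16) := b1
    have b1' : x (n + 16) ≤ -1 := b1'
    have b2 : x (n + 14) - 1 / 10 - 2 * ε ≤ x (n + 17) := b2
    have b2' : x (n + 17) ≤ x (n + 14) - 1 / 10 + 2 * ε := b2'
    have b3 : |x (n + 18)| ≤ ε := b3
    obtain ⟨c1, c1', c2, c2', c3⟩ := short h hx hε hε' (n + 16) b3
      (by show _ ≤ x (n + 17); linarith) (by show x (n + 17) ≤ _; linarith) (by linarith)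
      (by linarith)
    have c1 : -3 ≤ x (n + 19) := c1
    have c1' : x (n + 19) ≤ -1 := c1'
    have c2 : x (n + 17) - 1 / 10 - 2 * ε ≤ x (n + 20) := c2
    have c2' : x (n + 20) ≤ x (n + 17) - 1 / 10 + 2 * ε := c2'
    have c3 : |x (n + 21)| ≤ ε := c3
    refine ⟨⟨c3, c1, c1'⟩, ⟨?_, ?_⟩, ?_, ?_, ?_⟩
    · show 5 * x (n + 1) - 37 / 10 - 2 / 1000 ≤ x (n + 20)
      linarith
    · show x (n + 20) ≤ 5 * x (n + 1) - 37 / 10 + 2 / 1000
      linarith
    · intro j hj
      rw [show len true = 19 from rfl] at hj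
      have hu' : |x (n + 2)| ≤ 3 := by linarith
      have e13 : |x (n + 15)| ≤ 3 := by linarith
      have e16 : |x (n + 18)| ≤ 3 := by linarith
      interval_cases j
      · exact hu'
      · exact abs_le.2 ⟨a1, by show x (n + 3) ≤ 3; linarith⟩
      · exact abs_le.2 ⟨by show -3 ≤ x (n + 4); linarith, a2'⟩
      · exact abs_le.2 ⟨by show -3 ≤ x (n + 5); linarith, a3'⟩
      · exact abs_le.2 ⟨a4, by show x (n + 6) ≤ 3; linarith⟩
      · exact abs_le.2 ⟨by show -3 ≤ x (n + 7); linarith, a5'⟩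
      · exact abs_le.2 ⟨by show -3 ≤ x (n + 8); linarith, a6'⟩
      · exact abs_le.2 ⟨a7, by show x (n + 9) ≤ 3; linarith⟩
      · exact abs_le.2 ⟨by show -3 ≤ x (n + 10); linarith, a8'⟩
      · exact abs_le.2 ⟨by show -3 ≤ x (n + 11); linarith, a9'⟩
      · exact abs_le.2 ⟨a10, by show x (n + 12) ≤ 3; linarith⟩
      · exact abs_le.2 ⟨a11, by show x (n + 13) ≤ 3; linarith⟩
      · exact abs_le.2 ⟨by show -3 ≤ x (n + 14); linarith, by show x (n + 14) ≤ 3; linarith⟩
      · exact e13
      · exact abs_le.2 ⟨b1, by show x (n + 16) ≤ 3; linarith⟩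
      · exact abs_le.2 ⟨by show -3 ≤ x (n + 17); linarith, by show x (n + 17) ≤ 3; linarith⟩
      · exact e16
      · exact abs_le.2 ⟨c1, by show x (n + 19) ≤ 3; linarith⟩
      · exact abs_le.2 ⟨by show -3 ≤ x (n + 20); linarith, by show x (n + 20) ≤ 3; linarith⟩
    · intro j hj hev
      rcases hev with rfl | rfl | rfl
      · show |x (n + 2)| ≤ _; linarith
      · show |x (n + 15)| ≤ _; linarith
      · show |x (n + 18)| ≤ _; linarith
    · intro j hj hev
      rw [show len true = 19 from rfl] at hj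
      have hev' : ¬ (j = 0 ∨ j = 13 ∨ j = 16) := hev
      interval_cases j
      · simp at hev'
      · exact (by rw [abs_of_neg (by show x (n + 3) < 0; linarith)]; show _ ≤ - x (n + 3); linarith)
      · exact (by rw [abs_of_pos (by show 0 < x (n + 4); linarith)]; show _ ≤ x (n + 4); linarith)
      · exact (by rw [abs_of_pos (by show 0 < x (n + 5); linarith)]; show _ ≤ x (n + 5); linarith)
      · exact (by rw [abs_of_neg (by show x (n + 6) < 0; linarith)]; show _ ≤ - x (n + 6); linarith)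
      · exact (by rw [abs_of_pos (by show 0 < x (n + 7); linarith)]; show _ ≤ x (n + 7); linarith)
      · exact (by rw [abs_of_pos (by show 0 < x (n + 8); linarith)]; show _ ≤ x (n + 8); linarith)
      · exact (by rw [abs_of_neg (by show x (n + 9) < 0; linarith)]; show _ ≤ - x (n + 9); linarith)
      · exact (by rw [abs_of_pos (by show 0 < x (n + 10); linarith)]; show _ ≤ x (n + 10); linarith)
      · exact (by rw [abs_of_pos (by show 0 < x (n + 11); linarith)]; show _ ≤ x (n + 11); linarith)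
      · exact (by rw [abs_of_neg (by show x (n + 12) < 0; linarith)]; show _ ≤ - x (n + 12); linarith)
      · exact (by rw [abs_of_neg (by show x (n + 13) < 0; linarith)]; show _ ≤ - x (n + 13); linarith)
      · exact (by rw [abs_of_pos (by show 0 < x (n + 14); linarith)]; show _ ≤ x (n + 14); linarith)
      · simp at hev'
      · exact (by rw [abs_of_neg (by show x (n + 16) < 0; linarith)]; show _ ≤ - x (n + 16); linarith)
      · exact (by rw [abs_of_pos (by show 0 < x (n + 17); linarith)]; show _ ≤ x (n + 17); linarith)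
      · simp at hev'
      · exact (by rw [abs_of_neg (by show x (n + 19) < 0; linarith)]; show _ ≤ - x (n + 19); linarith)
      · exact (by rw [abs_of_pos (by show 0 < x (n + 20); linarith)]; show _ ≤ x (n + 20); linarith)

end Pool.Agent.Q191.RR
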