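import Pool.Agent.Q191.RR.Orbit

/-!
# The explicit parameter family
-/

set_option autoImplicit false
set_option linter.unusedVariables false

open Set Filter Topology

namespace Pool.Agent.Q191.RR

theorem par_of {t γ D : ℝ} (ht : 1000000 ≤ t) (hγ : 0 ≤ γ) (hD : 0 ≤ D)
    (hγ' : γ ≤ (4 : ℝ) ^ (-(10 * t))) (hD' : D ≤ (4 : ℝ) ^ (-(10 * t))) :
    Par (t * Real.log 4) γ D (1 / t) := by
  have h4 : 0 < Real.log 4 := Real.log_pos (by norm_num)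
  have ht0 : 0 < t := by linarith
  have e : (4 : ℝ) ^ (-(10 * t)) = Real.exp (-(10 * (t * Real.log 4))) := by
    rw [Real.rpow_def_of_pos (by norm_num)]
    congr 1
    ring
  refine ⟨by positivity, hγ, hD, e ▸ hγ', e ▸ hD', ?_⟩
  field_simp

/-- For every real `t ≥ 10 ^ 6` and all `0 ≤ γ, D ≤ 4 ^ (-10 t)`, with `α = 1`,
`δ = 4 ^ (9 t / 10)` and `C = 4 ^ t`. -/
theorem final {t γ D : ℝ} (ht : 1000000 ≤ t) (hγ : 0 ≤ γ) (hD : 0 ≤ D)
    (hγ' : γ ≤ (4 : ℝ) ^ (-(10 * t))) (hD' : D ≤ (4 : ℝ) ^ (-(10 * t))) :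
    ∃ x : ℕ → ℝ, (∀ n, 0 < x n) ∧
      (∀ n, x (n + 3) = (1 + x (n + 2) + γ * x (n + 1) + (4 : ℝ) ^ (9 * t / 10) * x n) /
        (x (n + 2) + (4 : ℝ) ^ t * x (n + 1) + D * x n)) ∧
      (∃ M, ∀ n, x n ≤ M) ∧
      (∀ L : ℝ, ¬ Tendsto x atTop (𝓝 L)) ∧
      ∀ p : ℕ → ℝ, (∃ k, 1 ≤ k ∧ ∀ n, p (n + k) = p n) →
        ¬ Tendsto (fun n => x n - p n) atTop (𝓝 0) := by
  have ht0 : 0 < t := by linarith
  have hε : (0 : ℝ) ≤ 1 / t := by positivity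
  have hε' : 1 / t ≤ 1 / 1000000 := one_div_le_one_div_of_le (by norm_num) ht
  obtain ⟨y, h1, h2, h3, h4⟩ := core (par_of ht hγ hD hγ' hD') hε hε'
  refine ⟨y, h1, fun n => ?_, h3, fun L hL => ?_, h4⟩
  · rw [h2 n, Real.rpow_def_of_pos (by norm_num : (0 : ℝ) < 4),
      Real.rpow_def_of_pos (by norm_num : (0 : ℝ) < 4)]
    have e1 : t * Real.log 4 * (9 / 10) = Real.log 4 * (9 * t / 10) := by ring
    have e2 : t * Real.log 4 = Real.log 4 * t := by ring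
    rw [e1, e2]
  · apply h4 (fun _ => L) ⟨1, le_rfl, fun n => rfl⟩
    have := hL.sub_const L
    rwa [sub_self] at this

end Pool.Agent.Q191.RR
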