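import Pool.Agent.Q191.RR.Step

/-!
# The two kinds of excursions
-/

set_option autoImplicit false
set_option linter.unusedVariables false

namespace Pool.Agent.Q191.RR

/-- an orbit of the map -/
def Orb (b γ D : ℝ) (x : ℕ → ℝ) : Prop := ∀ n, x (n + 3) = G b γ D (x (n + 2)) (x (n + 1)) (x n)

variable {b γ D ε : ℝ} (h : Par b γ D ε) {x : ℕ → ℝ} (hx : Orb b γ D x)

include h hx

/-- two-sided bound for one step -/
theorem one (n : ℕ) (P Q : ℝ) (h0 : 0 ≤ P) (hu : x (n + 2) ≤ P) (hw : 9 / 10 + x n ≤ P)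
    (hv : x (n + 1) ≤ 5) (hP : P ≤ 0 ∨ P ≤ x (n + 2) ∨ P ≤ 9 / 10 + x n)
    (hQu : x (n + 2) ≤ Q) (hQv : 1 + x (n + 1) ≤ Q) (hQw : x n - 10 ≤ Q)
    (hQ : Q ≤ x (n + 2) ∨ Q ≤ 1 + x (n + 1)) :
    P - Q - ε ≤ x (n + 3) ∧ x (n + 3) ≤ P - Q + ε := by
  rw [hx n]
  exact ⟨G_ge h P Q hP hQu hQv hQw, G_le h P Q h0 hu hw hv hQ⟩

/-- the short excursion -/
theorem short (hε : 0 ≤ ε) (hε' : ε ≤ 1 / 1000000) (n : ℕ) (hu : |x (n + 2)| ≤ ε)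
    (hv1 : 101 / 100 ≤ x (n + 1)) (hv2 : x (n + 1) ≤ 14 / 10) (hw1 : -3 ≤ x n) (hw2 : x n ≤ 0) :
    -3 ≤ x (n + 3) ∧ x (n + 3) ≤ -1 ∧ x (n + 1) - 1 / 10 - 2 * ε ≤ x (n + 4) ∧
      x (n + 4) ≤ x (n + 1) - 1 / 10 + 2 * ε ∧ |x (n + 5)| ≤ ε := by
  obtain ⟨hu1, hu2⟩ := abs_le.1 hu
  have l1 : 0 - (1 + x (n + 1)) - ε ≤ x (n + 3) := by
    rw [hx n]
    exact G_ge h _ _ (Or.inl le_rfl) (by linarith) le_rfl (by linarith)
  have u1 : x (n + 3) ≤ 9 / 10 - (1 + x (n + 1)) + ε := by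
    rw [hx n]
    exact G_le h _ _ (by norm_num) (by linarith) (by linarith) (by linarith) (Or.inr le_rfl)
  obtain ⟨l2, u2⟩ := one h hx (n + 1) (9 / 10 + x (n + 1)) (1 + x (n + 2)) (by linarith)
    (by show x (n + 3) ≤ _; linarith) le_rfl (by show x (n + 2) ≤ _; linarith)
    (Or.inr (Or.inr le_rfl)) (by show x (n + 3) ≤ _; linarith) le_rfl (by linarith)
    (Or.inr le_rfl)
  have l2' : 9 / 10 + x (n + 1) - (1 + x (n + 2)) - ε ≤ x (n + 4) := l2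
  have u2' : x (n + 4) ≤ 9 / 10 + x (n + 1) - (1 + x (n + 2)) + ε := u2
  obtain ⟨l3, u3⟩ := one h hx (n + 2) (x (n + 4)) (x (n + 4)) (by linarith) le_rfl
    (by linarith) (by show x (n + 3) ≤ _; linarith) (Or.inr (Or.inl le_rfl)) le_rfl
    (by show 1 + x (n + 3) ≤ _; linarith) (by linarith) (Or.inl le_rfl)
  have l3' : x (n + 4) - x (n + 4) - ε ≤ x (n + 5) := l3
  have u3' : x (n + 5) ≤ x (n + 4) - x (n + 4) + ε := u3
  refine ⟨by linarith, by linarith, by linarith, by linarith, abs_le.2 ⟨by linarith, by linarith⟩⟩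

/-- the long excursion -/
theorem long (hε : 0 ≤ ε) (hε' : ε ≤ 1 / 1000000) (n : ℕ) (hu : |x (n + 2)| ≤ ε)
    (hv1 : 92 / 100 ≤ x (n + 1)) (hv2 : x (n + 1) ≤ 956 / 1000) (hw1 : -3 ≤ x n)
    (hw2 : x n ≤ -1) :
    (-3 ≤ x (n + 3) ∧ x (n + 3) ≤ -1) ∧ (8 / 10 ≤ x (n + 4) ∧ x (n + 4) ≤ 3) ∧
    (4 / 100 ≤ x (n + 5) ∧ x (n + 5) ≤ 3) ∧ (-3 ≤ x (n + 6) ∧ x (n + 6) ≤ -1) ∧
    (5 / 10 ≤ x (n + 7) ∧ x (n + 7) ≤ 3) ∧ (2 / 10 ≤ x (n + 8) ∧ x (n + 8) ≤ 3) ∧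
    (-3 ≤ x (n + 9) ∧ x (n + 9) ≤ -1) ∧ (1 / 10 ≤ x (n + 10) ∧ x (n + 10) ≤ 3) ∧
    (5 / 10 ≤ x (n + 11) ∧ x (n + 11) ≤ 3) ∧ (-3 ≤ x (n + 12) ∧ x (n + 12) ≤ -1 / 10) ∧
    (-3 ≤ x (n + 13) ∧ x (n + 13) ≤ -3 / 10) ∧
    (5 * x (n + 1) - 35 / 10 - 1 / 1000 ≤ x (n + 14) ∧
      x (n + 14) ≤ 5 * x (n + 1) - 35 / 10 + 1 / 1000) ∧ |x (n + 15)| ≤ ε := by
  obtain ⟨hu1, hu2⟩ := abs_le.1 hu
  -- step 1
  have l1 : 0 - (1 + x (n + 1)) - ε ≤ x (n + 3) := by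
    rw [hx n]
    exact G_ge h _ _ (Or.inl le_rfl) (by linarith) le_rfl (by linarith)
  have u1 : x (n + 3) ≤ ε - (1 + x (n + 1)) + ε := by
    rw [hx n]
    exact G_le h _ _ hε (by linarith) (by linarith) (by linarith) (Or.inr le_rfl)
  -- step 2
  have s2 : 9 / 10 + x (n + 1) - (1 + x (n + 2)) - ε ≤ x (n + 4) ∧
      x (n + 4) ≤ 9 / 10 + x (n + 1) - (1 + x (n + 2)) + ε :=
    one h hx (n + 1) (9 / 10 + x (n + 1)) (1 + x (n + 2)) (by linarith)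
    (by show x (n + 3) ≤ _; linarith) le_rfl (by show x (n + 2) ≤ _; linarith)
    (Or.inr (Or.inr le_rfl)) (by show x (n + 3) ≤ _; linarith) le_rfl (by linarith)
    (Or.inr le_rfl)
  obtain ⟨l2, u2⟩ := s2
  -- step 3
  have s3 : 9 / 10 + x (n + 2) - x (n + 4) - ε ≤ x (n + 5) ∧
      x (n + 5) ≤ 9 / 10 + x (n + 2) - x (n + 4) + ε :=
    one h hx (n + 2) (9 / 10 + x (n + 2)) (x (n + 4)) (by linarith) (by show x (n + 4) ≤ _; linarith)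
    le_rfl (by show x (n + 3) ≤ _; linarith) (Or.inr (Or.inr le_rfl)) le_rfl
    (by show 1 + x (n + 3) ≤ _; linarith) (by linarith) (Or.inl le_rfl)
  obtain ⟨l3, u3⟩ := s3
  -- step 4
  have s4 : x (n + 5) - (1 + x (n + 4)) - ε ≤ x (n + 6) ∧
      x (n + 6) ≤ x (n + 5) - (1 + x (n + 4)) + ε :=
    one h hx (n + 3) (x (n + 5)) (1 + x (n + 4)) (by linarith) le_rfl
    (by linarith) (by show x (n + 4) ≤ _; linarith) (Or.inr (Or.inl le_rfl))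
    (by show x (n + 5) ≤ _; linarith) le_rfl (by linarith) (Or.inr le_rfl)
  obtain ⟨l4, u4⟩ := s4
  -- step 5
  have s5 : 9 / 10 + x (n + 4) - (1 + x (n + 5)) - ε ≤ x (n + 7) ∧
      x (n + 7) ≤ 9 / 10 + x (n + 4) - (1 + x (n + 5)) + ε :=
    one h hx (n + 4) (9 / 10 + x (n + 4)) (1 + x (n + 5)) (by linarith)
    (by show x (n + 6) ≤ _; linarith) le_rfl (by show x (n + 5) ≤ _; linarith)
    (Or.inr (Or.inr le_rfl)) (by show x (n + 6) ≤ _; linarith) le_rfl (by linarith)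
    (Or.inr le_rfl)
  obtain ⟨l5, u5⟩ := s5
  -- step 6
  have s6 : 9 / 10 + x (n + 5) - x (n + 7) - ε ≤ x (n + 8) ∧
      x (n + 8) ≤ 9 / 10 + x (n + 5) - x (n + 7) + ε :=
    one h hx (n + 5) (9 / 10 + x (n + 5)) (x (n + 7)) (by linarith)
    (by show x (n + 7) ≤ _; linarith) le_rfl (by show x (n + 6) ≤ _; linarith)
    (Or.inr (Or.inr le_rfl)) le_rfl (by show 1 + x (n + 6) ≤ _; linarith) (by linarith)
    (Or.inl le_rfl)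
  obtain ⟨l6, u6⟩ := s6
  -- step 7
  have s7 : x (n + 8) - (1 + x (n + 7)) - ε ≤ x (n + 9) ∧
      x (n + 9) ≤ x (n + 8) - (1 + x (n + 7)) + ε :=
    one h hx (n + 6) (x (n + 8)) (1 + x (n + 7)) (by linarith) le_rfl (by linarith)
    (by show x (n + 7) ≤ _; linarith) (Or.inr (Or.inl le_rfl)) (by show x (n + 8) ≤ _; linarith)
    le_rfl (by linarith) (Or.inr le_rfl)
  obtain ⟨l7, u7⟩ := s7
  -- step 8
  have s8 : 9 / 10 + x (n + 7) - (1 + x (n + 8)) - ε ≤ x (n + 10) ∧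
      x (n + 10) ≤ 9 / 10 + x (n + 7) - (1 + x (n + 8)) + ε :=
    one h hx (n + 7) (9 / 10 + x (n + 7)) (1 + x (n + 8)) (by linarith)
    (by show x (n + 9) ≤ _; linarith) le_rfl (by show x (n + 8) ≤ _; linarith)
    (Or.inr (Or.inr le_rfl)) (by show x (n + 9) ≤ _; linarith) le_rfl (by linarith)
    (Or.inr le_rfl)
  obtain ⟨l8, u8⟩ := s8
  -- step 9
  have s9 : 9 / 10 + x (n + 8) - x (n + 10) - ε ≤ x (n + 11) ∧
      x (n + 11) ≤ 9 / 10 + x (n + 8) - x (n + 10) + ε :=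
    one h hx (n + 8) (9 / 10 + x (n + 8)) (x (n + 10)) (by linarith)
    (by show x (n + 10) ≤ _; linarith) le_rfl (by show x (n + 9) ≤ _; linarith)
    (Or.inr (Or.inr le_rfl)) le_rfl (by show 1 + x (n + 9) ≤ _; linarith) (by linarith)
    (Or.inl le_rfl)
  obtain ⟨l9, u9⟩ := s9
  -- step 10
  have s10 : x (n + 11) - (1 + x (n + 10)) - ε ≤ x (n + 12) ∧
      x (n + 12) ≤ x (n + 11) - (1 + x (n + 10)) + ε :=
    one h hx (n + 9) (x (n + 11)) (1 + x (n + 10)) (by linarith) le_rfl (by linarith)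
    (by show x (n + 10) ≤ _; linarith) (Or.inr (Or.inl le_rfl))
    (by show x (n + 11) ≤ _; linarith) le_rfl (by linarith) (Or.inr le_rfl)
  obtain ⟨l10, u10⟩ := s10
  -- step 11
  have s11 : 9 / 10 + x (n + 10) - (1 + x (n + 11)) - ε ≤ x (n + 13) ∧
      x (n + 13) ≤ 9 / 10 + x (n + 10) - (1 + x (n + 11)) + ε :=
    one h hx (n + 10) (9 / 10 + x (n + 10)) (1 + x (n + 11)) (by linarith)
    (by show x (n + 12) ≤ _; linarith) le_rfl (by show x (n + 11) ≤ _; linarith)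
    (Or.inr (Or.inr le_rfl)) (by show x (n + 12) ≤ _; linarith) le_rfl (by linarith)
    (Or.inr le_rfl)
  obtain ⟨l11, u11⟩ := s11
  -- step 12
  have s12 : 9 / 10 + x (n + 11) - (1 + x (n + 12)) - ε ≤ x (n + 14) ∧
      x (n + 14) ≤ 9 / 10 + x (n + 11) - (1 + x (n + 12)) + ε :=
    one h hx (n + 11) (9 / 10 + x (n + 11)) (1 + x (n + 12)) (by linarith)
    (by show x (n + 13) ≤ _; linarith) le_rfl (by show x (n + 12) ≤ _; linarith)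
    (Or.inr (Or.inr le_rfl)) (by show x (n + 13) ≤ _; linarith) le_rfl (by linarith)
    (Or.inr le_rfl)
  obtain ⟨l12, u12⟩ := s12
  -- step 13
  have s13 : x (n + 14) - x (n + 14) - ε ≤ x (n + 15) ∧
      x (n + 15) ≤ x (n + 14) - x (n + 14) + ε :=
    one h hx (n + 12) (x (n + 14)) (x (n + 14)) (by linarith) le_rfl (by linarith)
    (by show x (n + 13) ≤ _; linarith) (Or.inr (Or.inl le_rfl)) le_rfl
    (by show 1 + x (n + 13) ≤ _; linarith) (by linarith) (Or.inl le_rfl)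
  obtain ⟨l13, u13⟩ := s13
  refine ⟨⟨?_, ?_⟩, ⟨?_, ?_⟩, ⟨?_, ?_⟩, ⟨?_, ?_⟩, ⟨?_, ?_⟩, ⟨?_, ?_⟩, ⟨?_, ?_⟩, ⟨?_, ?_⟩, ⟨?_, ?_⟩,
    ⟨?_, ?_⟩, ⟨?_, ?_⟩, ⟨?_, ?_⟩, abs_le.2 ⟨?_, ?_⟩⟩ <;> linarith

end Pool.Agent.Q191.RR
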