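import Mathlib

/-!
# Choosing a subinterval that crosses an interval, and words with long runs
-/

set_option autoImplicit false
set_option linter.unusedVariables false

open Set Filter Topology

namespace Pool.Agent.Q191.RR

/-- a continuous function crossing `[l, r]` does so on a subinterval -/
theorem sub_cross {φ : ℝ → ℝ} {a b l r : ℝ} (hφ : ContinuousOn φ (Icc a b)) (hab : a ≤ b)
    (hlr : l ≤ r) (ha : φ a ≤ l) (hb : r ≤ φ b) :
    ∃ a' b', a ≤ a' ∧ a' ≤ b' ∧ b' ≤ b ∧ φ a' = l ∧ φ b' = r ∧
      ∀ s ∈ Icc a' b', l ≤ φ s ∧ φ s ≤ r := by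
  -- first time at which `r` is reached
  have hc1 : IsCompact (Icc a b ∩ φ ⁻¹' Ici r) :=
    isCompact_Icc.of_isClosed_subset
      (hφ.preimage_isClosed_of_isClosed isClosed_Icc isClosed_Ici) inter_subset_left
  have hn1 : (Icc a b ∩ φ ⁻¹' Ici r).Nonempty := ⟨b, ⟨hab, le_rfl⟩, hb⟩
  have hm1 := hc1.sInf_mem hn1
  set b' := sInf (Icc a b ∩ φ ⁻¹' Ici r) with hb'
  have hlow : ∀ s ∈ Icc a b, r ≤ φ s → b' ≤ s := fun s hs hr =>
    csInf_le hc1.bddBelow ⟨hs, hr⟩
  have hab' : a ≤ b' := hm1.1.1
  have hb'b : b' ≤ b := hm1.1.2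
  have hφ1 : ContinuousOn φ (Icc a b') := hφ.mono (Icc_subset_Icc le_rfl hb'b)
  have hbr : φ b' = r := by
    obtain ⟨s, hs, hsr⟩ := intermediate_value_Icc hab' hφ1 ⟨ha.trans hlr, hm1.2⟩
    have h1 := hlow s ⟨hs.1, hs.2.trans hb'b⟩ hsr.ge
    rw [le_antisymm h1 hs.2, hsr]
  have hup : ∀ s ∈ Icc a b', φ s ≤ r := by
    intro s hs
    by_contra hcon
    push Not at hcon
    have h1 := hlow s ⟨hs.1, hs.2.trans hb'b⟩ hcon.le
    have h2 : s = b' := le_antisymm hs.2 h1
    rw [h2, hbr] at hcon
    exact lt_irrefl _ hcon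
  -- last time before at which `l` is reached
  have hc2 : IsCompact (Icc a b' ∩ φ ⁻¹' Iic l) :=
    isCompact_Icc.of_isClosed_subset
      (hφ1.preimage_isClosed_of_isClosed isClosed_Icc isClosed_Iic) inter_subset_left
  have hn2 : (Icc a b' ∩ φ ⁻¹' Iic l).Nonempty := ⟨a, ⟨le_rfl, hab'⟩, ha⟩
  have hm2 := hc2.sSup_mem hn2
  set a' := sSup (Icc a b' ∩ φ ⁻¹' Iic l) with ha'
  have hhigh : ∀ s ∈ Icc a b', φ s ≤ l → s ≤ a' := fun s hs hr =>
    le_csSup hc2.bddAbove ⟨hs, hr⟩
  have haa' : a ≤ a' := hm2.1.1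
  have ha'b' : a' ≤ b' := hm2.1.2
  have hφ2 : ContinuousOn φ (Icc a' b') := hφ1.mono (Icc_subset_Icc haa' le_rfl)
  have hal : φ a' = l := by
    obtain ⟨s, hs, hsl⟩ := intermediate_value_Icc ha'b' hφ2 ⟨hm2.2, hlr.trans hbr.ge⟩
    have h1 := hhigh s ⟨haa'.trans hs.1, hs.2⟩ hsl.le
    rw [le_antisymm hs.1 h1, hsl]
  refine ⟨a', b', haa', ha'b', hb'b, hal, hbr, fun s hs => ⟨?_, hup s ⟨haa'.trans hs.1, hs.2⟩⟩⟩
  by_contra hcon
  push Not at hcon
  have h1 := hhigh s ⟨haa'.trans hs.1, hs.2⟩ hcon.le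
  have h2 : s = a' := le_antisymm h1 hs.1
  rw [h2, hal] at hcon
  exact lt_irrefl _ hcon

/-- starting times of the blocks -/
def tim (len : Bool → ℕ) (w : ℕ → Bool) : ℕ → ℕ
  | 0 => 0
  | (m + 1) => tim len w m + len (w m)

theorem tim_ge {len : Bool → ℕ} (hlen : ∀ i, 0 < len i) (w : ℕ → Bool) (m : ℕ) :
    m ≤ tim len w m := by
  induction m with
  | zero => exact Nat.zero_le _
  | succ m ih =>
    show m + 1 ≤ tim len w m + len (w m)
    have := hlen (w m)
    omega

theorem tim_mono {len : Bool → ℕ} (w : ℕ → Bool) : Monotone (tim len w) :=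
  monotone_nat_of_le_succ fun m => Nat.le_add_right _ _

theorem tim_find {len : Bool → ℕ} (hlen : ∀ i, 0 < len i) (w : ℕ → Bool) (n : ℕ) :
    ∃ m j, j < len (w m) ∧ n = tim len w m + j := by
  induction n with
  | zero => exact ⟨0, 0, hlen _, rfl⟩
  | succ n ih =>
    obtain ⟨m, j, hj, hn⟩ := ih
    by_cases h : j + 1 < len (w m)
    · exact ⟨m, j + 1, h, by omega⟩
    · refine ⟨m + 1, 0, hlen _, ?_⟩
      show n + 1 = tim len w m + len (w m) + 0
      omega

/-- the word -/
noncomputable def wd (m : ℕ) : Bool := by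
  classical
  exact decide (IsSquare m)

theorem wd_true (M : ℕ) : wd (M * M) = true := by
  classical
  unfold wd
  simp

theorem wd_false {M i : ℕ} (hi : i < 2 * M) : wd (M * M + 1 + i) = false := by
  classical
  unfold wd
  simp only [decide_eq_false_iff_not]
  rintro ⟨r, hr⟩
  rcases le_or_gt r M with h | h
  · have : r * r ≤ M * M := Nat.mul_le_mul h h
    omega
  · have : (M + 1) * (M + 1) ≤ r * r := Nat.mul_le_mul h h
    have e : (M + 1) * (M + 1) = M * M + 2 * M + 1 := by ring
    omega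

/-- the observable is not asymptotically periodic -/
theorem nonper {x : ℕ → ℝ} {len : Bool → ℕ} {ev : Bool → ℕ → Prop} {d s : ℕ}
    (hd : ∀ i, d < len i) (hlen : len false = len true + d)
    (h1 : ∀ m j, j < len (wd m) → ev (wd m) j → |x (tim len wd m + s + j)| ≤ 1 / 100)
    (h2 : ∀ m j, j < len (wd m) → ¬ ev (wd m) j → 3 / 100 ≤ |x (tim len wd m + s + j)|)
    (hev0 : ∀ i, ev i 0) (hevd : ∀ i, ¬ ev i d) (k : ℕ) (hk : 1 ≤ k) :
    ¬ Tendsto (fun n => x (n + k) - x n) atTop (𝓝 0) := by
  intro ht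
  have hpos : ∀ i, 0 < len i := fun i => lt_of_le_of_lt (Nat.zero_le _) (hd i)
  rw [Metric.tendsto_atTop] at ht
  obtain ⟨n0, hn0⟩ := ht (1 / 100) (by norm_num)
  have hdich : ∀ n, s ≤ n → |x n| ≤ 1 / 100 ∨ 3 / 100 ≤ |x n| := by
    intro n hn
    obtain ⟨m, j, hj, hm⟩ := tim_find hpos wd (n - s)
    have e : n = tim len wd m + s + j := by omega
    rw [e]
    by_cases hev : ev (wd m) j
    · exact Or.inl (h1 m j hj hev)
    · exact Or.inr (h2 m j hj hev)
  have hper : ∀ n, n0 + s ≤ n → (|x n| ≤ 1 / 100 ↔ |x (n + k)| ≤ 1 / 100) := by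
    intro n hn
    have h3 := hn0 n (by omega)
    rw [Real.dist_eq, sub_zero] at h3
    have h4 := abs_sub_abs_le_abs_sub (x (n + k)) (x n)
    have h5 := abs_sub_abs_le_abs_sub (x n) (x (n + k))
    rw [abs_sub_comm] at h5
    constructor
    · intro h
      rcases hdich (n + k) (by omega) with h' | h'
      · exact h'
      · linarith
    · intro h
      rcases hdich n (by omega) with h' | h'
      · exact h'
      · linarith
  -- a long run
  obtain ⟨M, hM1, hM2⟩ : ∃ M : ℕ, n0 ≤ M ∧ k + 1 ≤ M := ⟨n0 + k + 1, by omega, by omega⟩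
  set m0 := M * M + 1 with hm0
  have hrun : ∀ i, i ≤ 2 * M → tim len wd (m0 + i) = tim len wd m0 + len false * i := by
    intro i
    induction i with
    | zero => intro _; simp
    | succ i ih =>
      intro hi
      have h3 := ih (by omega)
      show tim len wd (m0 + i) + len (wd (m0 + i)) = _
      rw [h3, wd_false (by omega)]
      ring
  set n1 := tim len wd m0 + s with hn1
  have hMM : M ≤ M * M := Nat.le_mul_of_pos_left M (by omega)
  have hn1' : n0 + s ≤ n1 := by
    have := tim_ge hpos wd m0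
    omega
  have hL := hpos false
  have hbase : ∀ n, n1 ≤ n → n < n1 + k →
      (|x n| ≤ 1 / 100 ↔ |x (n + len false)| ≤ 1 / 100) := by
    intro n h3 h4
    set i := (n - n1) / len false with hi
    set j := (n - n1) % len false with hj
    have hij : n - n1 = len false * i + j := (Nat.div_add_mod _ _).symm
    have hjl : j < len false := Nat.mod_lt _ hL
    have hik : i < k := by
      have : i ≤ n - n1 := Nat.div_le_self _ _
      omega
    have hwi : wd (m0 + i) = false := wd_false (by omega)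
    have hwi' : wd (m0 + (i + 1)) = false := wd_false (by omega)
    have t1 := hrun i (by omega)
    have t2 := hrun (i + 1) (by omega)
    have e2 : len false * (i + 1) = len false * i + len false := by ring
    have e3 : n = tim len wd (m0 + i) + s + j := by
      rw [t1]; omega
    have e4 : n + len false = tim len wd (m0 + (i + 1)) + s + j := by
      rw [t2, e2]; omega
    rw [e4]
    nth_rewrite 1 [e3]
    by_cases hev : ev false j
    · have a1 := h1 (m0 + i) j (by rw [hwi]; exact hjl) (by rw [hwi]; exact hev)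
      have a2 := h1 (m0 + (i + 1)) j (by rw [hwi']; exact hjl) (by rw [hwi']; exact hev)
      exact ⟨fun _ => a2, fun _ => a1⟩
    · have a1 := h2 (m0 + i) j (by rw [hwi]; exact hjl) (by rw [hwi]; exact hev)
      have a2 := h2 (m0 + (i + 1)) j (by rw [hwi']; exact hjl) (by rw [hwi']; exact hev)
      constructor
      · intro h; linarith
      · intro h; linarith
  have hall : ∀ n, n1 ≤ n → (|x n| ≤ 1 / 100 ↔ |x (n + len false)| ≤ 1 / 100) := by
    intro n
    induction n using Nat.strong_induction_on with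
    | _ n ih =>
      intro h3
      by_cases h4 : n < n1 + k
      · exact hbase n h3 h4
      · have h5 := ih (n - k) (by omega) (by omega)
        have h6 := hper (n - k) (by omega)
        have h7 := hper (n - k + len false) (by omega)
        have e1 : n - k + k = n := by omega
        have e2 : n - k + len false + k = n + len false := by omega
        rw [e1] at h6
        rw [e2] at h7
        exact h6.symm.trans (h5.trans h7)
  -- contradiction at the next square
  set m := (M + 1) * (M + 1) with hm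
  have hmw : wd m = true := wd_true (M + 1)
  have hm1 : m0 ≤ m := by
    have e : (M + 1) * (M + 1) = M * M + 2 * M + 1 := by ring
    omega
  have hT : n1 ≤ tim len wd m + s := by
    have := tim_mono (len := len) wd hm1
    omega
  have a1 := h1 m 0 (hpos _) (hev0 _)
  rw [add_zero] at a1
  have a2 := (hall _ hT).1 a1
  have a3 := h2 (m + 1) d (hd _) (hevd _)
  have e5 : tim len wd (m + 1) + s + d = tim len wd m + s + len false := by
    show tim len wd m + len (wd m) + s + d = _
    rw [hmw, hlen]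
    ring
  rw [e5] at a3
  linarith

end Pool.Agent.Q191.RR
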