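import Pool.Agent.Q191.RR.Block
import Pool.Agent.Q191.RR.Sub

/-!
# An orbit following a prescribed word of blocks
-/

set_option autoImplicit false
set_option linter.unusedVariables false

open Set Filter Topology

namespace Pool.Agent.Q191.RR

/-- the orbit with initial section value `s` -/
noncomputable def z (b γ D s : ℝ) : ℕ → ℝ
  | 0 => -2
  | 1 => s
  | 2 => 0
  | (n + 3) => G b γ D (z b γ D s (n + 2)) (z b γ D s (n + 1)) (z b γ D s n)

theorem z_orb (b γ D s : ℝ) : Orb b γ D (z b γ D s) := fun n => by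
  rw [z]

theorem z_cont {b γ D ε : ℝ} (h : Par b γ D ε) (n : ℕ) : Continuous (fun s => z b γ D s n) := by
  induction n using Nat.strong_induction_on with
  | _ n ih =>
    match n, ih with
    | 0, _ => simp only [z]; exact continuous_const
    | 1, _ => simp only [z]; exact continuous_id
    | 2, _ => simp only [z]; exact continuous_const
    | (k + 3), ih =>
      have e : (fun s => z b γ D s (k + 3)) =
          (fun p : ℝ × ℝ × ℝ => G b γ D p.1 p.2.1 p.2.2) ∘
            (fun s => (z b γ D s (k + 2), z b γ D s (k + 1), z b γ D s k)) := by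
        funext s
        show z b γ D s (k + 3) = _
        rw [z]
        rfl
      rw [e]
      exact (G_cont h).comp ((ih (k + 2) (by omega)).prodMk
        ((ih (k + 1) (by omega)).prodMk (ih k (by omega))))

theorem lft_le_rgt (i : Bool) : lft i ≤ rgt i := by
  cases i <;> simp only [lft, rgt] <;> norm_num

theorem cross_l (i j : Bool) : 5 * lft i - cst i + 2 / 1000 ≤ lft j := by
  cases i <;> cases j <;> simp only [lft, cst] <;> norm_num

theorem cross_r (i j : Bool) : rgt j ≤ 5 * rgt i - cst i - 2 / 1000 := by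
  cases i <;> cases j <;> simp only [rgt, cst] <;> norm_num

/-- the parameter interval `[p.1, p.2]` realises the first `m` blocks -/
def Rm (b γ D ε : ℝ) (m : ℕ) (p : ℝ × ℝ) : Prop :=
  p.1 ≤ p.2 ∧
  (∀ s ∈ Icc p.1 p.2, Sec ε (z b γ D s) (tim len wd m) ∧
    lft (wd m) ≤ z b γ D s (tim len wd m + 1) ∧ z b γ D s (tim len wd m + 1) ≤ rgt (wd m)) ∧
  z b γ D p.1 (tim len wd m + 1) = lft (wd m) ∧ z b γ D p.2 (tim len wd m + 1) = rgt (wd m)

theorem Rm_zero {b γ D ε : ℝ} (hε : 0 ≤ ε) : Rm b γ D ε 0 (lft (wd 0), rgt (wd 0)) := by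
  refine ⟨lft_le_rgt (wd 0), fun s hs => ⟨⟨?_, ?_, ?_⟩, ?_, ?_⟩, ?_, ?_⟩
  · show |z b γ D s 2| ≤ ε
    simp only [z]
    rw [abs_zero]
    exact hε
  · show -3 ≤ z b γ D s 0
    simp only [z]
    norm_num
  · show z b γ D s 0 ≤ -1
    simp only [z]
    norm_num
  · show _ ≤ z b γ D s 1
    simp only [z]
    exact hs.1
  · show z b γ D s 1 ≤ _
    simp only [z]
    exact hs.2
  · show z b γ D _ 1 = _
    simp only [z]
  · show z b γ D _ 1 = _
    simp only [z]

theorem Rm_step {b γ D ε : ℝ} (h : Par b γ D ε) (hε : 0 ≤ ε) (hε' : ε ≤ 1 / 1000000) (m : ℕ)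
    (p : ℝ × ℝ) (hp : Rm b γ D ε m p) :
    ∃ q : ℝ × ℝ, Rm b γ D ε (m + 1) q ∧ p.1 ≤ q.1 ∧ q.2 ≤ p.2 := by
  obtain ⟨hle, hS, hl, hr⟩ := hp
  have hb : ∀ s ∈ Icc p.1 p.2, _ := fun s hs =>
    block h (z_orb b γ D s) hε hε' (tim len wd m) (wd m) (hS s hs).1 (hS s hs).2.1 (hS s hs).2.2
  have e : tim len wd (m + 1) = tim len wd m + len (wd m) := rfl
  obtain ⟨a', b', h1, h2, h3, h4, h5, h6⟩ := sub_cross
    (φ := fun s => z b γ D s (tim len wd (m + 1) + 1)) (a := p.1) (b := p.2)
    (l := lft (wd (m + 1))) (r := rgt (wd (m + 1)))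
    (z_cont h _).continuousOn hle (lft_le_rgt _)
    (by
      show z b γ D p.1 (tim len wd (m + 1) + 1) ≤ _
      rw [e]
      have := (hb p.1 ⟨le_rfl, hle⟩).2.1.2
      rw [hl] at this
      exact this.trans (cross_l _ _))
    (by
      show _ ≤ z b γ D p.2 (tim len wd (m + 1) + 1)
      rw [e]
      have := (hb p.2 ⟨hle, le_rfl⟩).2.1.1
      rw [hr] at this
      exact (cross_r _ _).trans this)
  refine ⟨(a', b'), ⟨h2, fun s hs => ⟨?_, ?_⟩, h4, h5⟩, h1, h3⟩
  · rw [e]
    exact (hb s ⟨h1.trans hs.1, hs.2.trans h3⟩).1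
  · exact h6 s hs

/-- an orbit with the prescribed block structure -/
theorem exists_orbit {b γ D ε : ℝ} (h : Par b γ D ε) (hε : 0 ≤ ε) (hε' : ε ≤ 1 / 1000000) :
    ∃ s : ℝ, ∀ m, Sec ε (z b γ D s) (tim len wd m) ∧
      lft (wd m) ≤ z b γ D s (tim len wd m + 1) ∧ z b γ D s (tim len wd m + 1) ≤ rgt (wd m) := by
  have step : ∀ (m : ℕ) (p : {p : ℝ × ℝ // Rm b γ D ε m p}),
      ∃ q : {q : ℝ × ℝ // Rm b γ D ε (m + 1) q}, p.1.1 ≤ q.1.1 ∧ q.1.2 ≤ p.1.2 := by
    rintro m ⟨p, hp⟩
    obtain ⟨q, hq, h1, h2⟩ := Rm_step h hε hε' m p hp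
    exact ⟨⟨q, hq⟩, h1, h2⟩
  choose f hf1 hf2 using step
  let I : ∀ m, {p : ℝ × ℝ // Rm b γ D ε m p} := fun m =>
    Nat.rec ⟨_, Rm_zero hε⟩ (fun m p => f m p) m
  have hI : ∀ m, I (m + 1) = f m (I m) := fun m => rfl
  obtain ⟨s, hs⟩ := IsCompact.nonempty_iInter_of_sequence_nonempty_isCompact_isClosed
    (fun m => Icc (I m).1.1 (I m).1.2)
    (fun m => by
      apply Icc_subset_Icc
      · rw [hI]; exact hf1 m (I m)
      · rw [hI]; exact hf2 m (I m))
    (fun m => nonempty_Icc.2 (I m).2.1) isCompact_Icc (fun m => isClosed_Icc)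
  rw [mem_iInter] at hs
  exact ⟨s, fun m => (I m).2.2.1 s (hs m)⟩

/-- the orbit in logarithmic coordinates -/
theorem exists_log {b γ D ε : ℝ} (h : Par b γ D ε) (hε : 0 ≤ ε) (hε' : ε ≤ 1 / 1000000) :
    ∃ x : ℕ → ℝ, Orb b γ D x ∧ (∀ n, |x n| ≤ 3) ∧
      ∀ k, 1 ≤ k → ¬ Tendsto (fun n => x (n + k) - x n) atTop (𝓝 0) := by
  obtain ⟨s, hs⟩ := exists_orbit h hε hε'
  have hb : ∀ m, _ := fun m =>
    block h (z_orb b γ D s) hε hε' (tim len wd m) (wd m) (hs m).1 (hs m).2.1 (hs m).2.2
  refine ⟨z b γ D s, z_orb b γ D s, ?_, ?_⟩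
  · intro n
    match n with
    | 0 => simp only [z]; norm_num
    | 1 =>
      have h1 := (hs 0).2
      have e : tim len wd 0 + 1 = 1 := rfl
      rw [e] at h1
      have h2 : ∀ i, (0 : ℝ) ≤ lft i := by
        intro i; cases i <;> simp only [lft] <;> norm_num
      have h3 : ∀ i, rgt i ≤ (3 : ℝ) := by
        intro i; cases i <;> simp only [rgt] <;> norm_num
      rw [abs_of_nonneg ((h2 _).trans h1.1)]
      exact h1.2.trans (h3 _)
    | (k + 2) =>
      obtain ⟨m, j, hj, hm⟩ := tim_find (len := len)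
        (fun i => by cases i <;> decide) wd k
      have := (hb m).2.2.1 j hj
      rw [show k + 2 = tim len wd m + 2 + j by omega]
      exact this
  · intro k hk
    refine nonper (len := len) (ev := ev) (d := 3) (s := 2) (fun i => by cases i <;> decide)
      rfl (fun m => (hb m).2.2.2.1) (fun m => (hb m).2.2.2.2) ?_ ?_ k hk
    · intro i
      cases i
      · exact Or.inl rfl
      · exact Or.inl rfl
    · intro i hi
      cases i
      · have hi' : 3 = 0 ∨ 3 = 13 ∨ 3 = 16 ∨ 3 = 19 := hi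
        omega
      · have hi' : 3 = 0 ∨ 3 = 13 ∨ 3 = 16 := hi
        omega

/-- the solution of the rational recurrence -/
theorem core {b γ D ε : ℝ} (h : Par b γ D ε) (hε : 0 ≤ ε) (hε' : ε ≤ 1 / 1000000) :
    ∃ y : ℕ → ℝ, (∀ n, 0 < y n) ∧
      (∀ n, y (n + 3) = (1 + y (n + 2) + γ * y (n + 1) + Real.exp (b * (9 / 10)) * y n) /
        (y (n + 2) + Real.exp b * y (n + 1) + D * y n)) ∧
      (∃ M, ∀ n, y n ≤ M) ∧
      ∀ p : ℕ → ℝ, (∃ k, 1 ≤ k ∧ ∀ n, p (n + k) = p n) →
        ¬ Tendsto (fun n => y n - p n) atTop (𝓝 0) := by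
  obtain ⟨x, hx, hx3, hnp⟩ := exists_log h hε hε'
  have hb := h.b_pos
  refine ⟨fun n => Real.exp (b * x n), fun n => Real.exp_pos _, ?_, ?_, ?_⟩
  · intro n
    show Real.exp (b * x (n + 3)) = _
    rw [hx n, G, mul_div_cancel₀ _ hb.ne', Real.exp_sub, Real.exp_log (num_pos h _ _ _),
      Real.exp_log (den_pos h _ _ _), mul_add b (9 / 10) (x n), Real.exp_add,
      mul_add b 1 (x (n + 1)), mul_one, Real.exp_add]
  · refine ⟨Real.exp (b * 3), fun n => Real.exp_le_exp.2 ?_⟩
    have := (abs_le.1 (hx3 n)).2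
    gcongr
  · rintro p ⟨k, hk, hp⟩ ht
    apply hnp k hk
    -- the difference of consecutive periods tends to zero
    have h1 : Tendsto (fun n => Real.exp (b * x (n + k)) - Real.exp (b * x n)) atTop (𝓝 0) := by
      have h2 := (ht.comp (tendsto_add_atTop_nat k)).sub ht
      rw [sub_zero] at h2
      refine h2.congr fun n => ?_
      simp only [Function.comp]
      rw [hp n]
      ring
    -- pass to logarithms
    have h3 : ∀ n, |x (n + k) - x n| ≤
        (Real.exp (b * 3) / b) * |Real.exp (b * x (n + k)) - Real.exp (b * x n)| := by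
      have key : ∀ u v : ℝ, |u| ≤ 3 → |v| ≤ 3 → u ≤ v →
          v - u ≤ (Real.exp (b * 3) / b) * (Real.exp (b * v) - Real.exp (b * u)) := by
        intro u v hu hv huv
        have hu' := (abs_le.1 hu).1
        have e1 : Real.exp (b * v) - Real.exp (b * u) =
            Real.exp (b * u) * (Real.exp (b * (v - u)) - 1) := by
          rw [mul_sub, ← Real.exp_add]
          congr 2
          · ring
          · ring
        have e2 : b * (v - u) ≤ Real.exp (b * (v - u)) - 1 := by
          have := Real.add_one_le_exp (b * (v - u))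
          linarith
        have e3 : 1 ≤ Real.exp (b * 3) * Real.exp (b * u) := by
          rw [← Real.exp_add]
          apply Real.one_le_exp
          nlinarith
        have e4 : 0 ≤ b * (v - u) := mul_nonneg hb.le (by linarith)
        rw [e1, div_mul_eq_mul_div, le_div_iff₀ hb]
        calc (v - u) * b = 1 * (b * (v - u)) := by ring
          _ ≤ (Real.exp (b * 3) * Real.exp (b * u)) * (Real.exp (b * (v - u)) - 1) :=
            mul_le_mul e3 e2 e4 (by positivity)
          _ = _ := by ring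
      intro n
      rcases le_total (x n) (x (n + k)) with hle | hle
      · have := key _ _ (hx3 n) (hx3 (n + k)) hle
        rw [abs_of_nonneg (by linarith), abs_of_nonneg]
        · exact this
        · have : Real.exp (b * x n) ≤ Real.exp (b * x (n + k)) := Real.exp_le_exp.2 (by gcongr)
          linarith
      · have := key _ _ (hx3 (n + k)) (hx3 n) hle
        rw [abs_of_nonpos (by linarith), abs_of_nonpos]
        · linarith
        · have : Real.exp (b * x (n + k)) ≤ Real.exp (b * x n) := Real.exp_le_exp.2 (by gcongr)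
          linarith
    rw [tendsto_zero_iff_abs_tendsto_zero]
    refine squeeze_zero (fun n => abs_nonneg _) h3 ?_
    have h4 := (h1.abs).const_mul (Real.exp (b * 3) / b)
    rw [abs_zero, mul_zero] at h4
    exact h4

end Pool.Agent.Q191.RR
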