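import Mathlib

/-!
# A third-order rational recurrence in logarithmic coordinates

In the coordinates `x = exp (b * ξ)` the map `(α + u + γ v + δ w) / (u + C v + D w)` with
`α = 1`, `δ = exp (9 b / 10)`, `C = exp b` and tiny `γ`, `D` is within `ε` of the tropical map
`max 0 u (9/10 + w) - max u (1 + v)`.
-/

set_option autoImplicit false
set_option linter.unusedVariables false

namespace Pool.Agent.Q191.RR

open Real

/-- the map in logarithmic coordinates -/
noncomputable def G (b γ D u v w : ℝ) : ℝ :=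
  (log (1 + exp (b * u) + γ * exp (b * v) + exp (b * (9 / 10 + w))) -
    log (exp (b * u) + exp (b * (1 + v)) + D * exp (b * w))) / b

/-- admissible parameters -/
structure Par (b γ D ε : ℝ) : Prop where
  b_pos : 0 < b
  γ_nonneg : 0 ≤ γ
  D_nonneg : 0 ≤ D
  γ_le : γ ≤ exp (-(10 * b))
  D_le : D ≤ exp (-(10 * b))
  eps : log 4 = ε * b

variable {b γ D ε : ℝ} (h : Par b γ D ε)

include h

theorem num_pos (u v w : ℝ) :
    0 < 1 + exp (b * u) + γ * exp (b * v) + exp (b * (9 / 10 + w)) := by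
  have := h.γ_nonneg
  positivity

theorem den_pos (u v w : ℝ) : 0 < exp (b * u) + exp (b * (1 + v)) + D * exp (b * w) := by
  have := h.D_nonneg
  positivity

theorem num_le {u v w P : ℝ} (h0 : 0 ≤ P) (hu : u ≤ P) (hw : 9 / 10 + w ≤ P) (hv : v ≤ 5) :
    log (1 + exp (b * u) + γ * exp (b * v) + exp (b * (9 / 10 + w))) ≤ log 4 + b * P := by
  have hb := h.b_pos
  have e1 : log 4 + b * P = log (4 * exp (b * P)) := by
    rw [log_mul (by norm_num) (exp_pos _).ne', log_exp]
  rw [e1]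
  apply log_le_log (num_pos h u v w)
  have h1 : (1 : ℝ) ≤ exp (b * P) := one_le_exp (by positivity)
  have h2 : exp (b * u) ≤ exp (b * P) := exp_le_exp.2 (by gcongr)
  have h3 : exp (b * (9 / 10 + w)) ≤ exp (b * P) := exp_le_exp.2 (by gcongr)
  have h4 : γ * exp (b * v) ≤ exp (b * P) := by
    calc γ * exp (b * v) ≤ exp (-(10 * b)) * exp (b * v) := by
          gcongr
          exact h.γ_le
      _ = exp (b * (v - 10)) := by rw [← exp_add]; congr 1; ring
      _ ≤ exp (b * P) := exp_le_exp.2 (by gcongr; linarith)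
  linarith

theorem le_num {u v w P : ℝ} (hP : P ≤ 0 ∨ P ≤ u ∨ P ≤ 9 / 10 + w) :
    b * P ≤ log (1 + exp (b * u) + γ * exp (b * v) + exp (b * (9 / 10 + w))) := by
  have hb := h.b_pos
  rw [le_log_iff_exp_le (num_pos h u v w)]
  have h1 := exp_pos (b * u)
  have h2 := exp_pos (b * (9 / 10 + w))
  have h3 : 0 ≤ γ * exp (b * v) := mul_nonneg h.γ_nonneg (exp_pos _).le
  rcases hP with hP | hP | hP
  · have : exp (b * P) ≤ 1 := exp_le_one_iff.2 (mul_nonpos_of_nonneg_of_nonpos hb.le hP)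
    linarith
  · have : exp (b * P) ≤ exp (b * u) := exp_le_exp.2 (by gcongr)
    linarith
  · have : exp (b * P) ≤ exp (b * (9 / 10 + w)) := exp_le_exp.2 (by gcongr)
    linarith

theorem den_le {u v w Q : ℝ} (hu : u ≤ Q) (hv : 1 + v ≤ Q) (hw : w - 10 ≤ Q) :
    log (exp (b * u) + exp (b * (1 + v)) + D * exp (b * w)) ≤ log 4 + b * Q := by
  have hb := h.b_pos
  have e1 : log 4 + b * Q = log (4 * exp (b * Q)) := by
    rw [log_mul (by norm_num) (exp_pos _).ne', log_exp]
  rw [e1]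
  apply log_le_log (den_pos h u v w)
  have h2 : exp (b * u) ≤ exp (b * Q) := exp_le_exp.2 (by gcongr)
  have h3 : exp (b * (1 + v)) ≤ exp (b * Q) := exp_le_exp.2 (by gcongr)
  have h4 : D * exp (b * w) ≤ exp (b * Q) := by
    calc D * exp (b * w) ≤ exp (-(10 * b)) * exp (b * w) := by
          gcongr
          exact h.D_le
      _ = exp (b * (w - 10)) := by rw [← exp_add]; congr 1; ring
      _ ≤ exp (b * Q) := exp_le_exp.2 (by gcongr)
  have h5 := exp_pos (b * Q)
  linarith

theorem le_den {u v w Q : ℝ} (hQ : Q ≤ u ∨ Q ≤ 1 + v) :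
    b * Q ≤ log (exp (b * u) + exp (b * (1 + v)) + D * exp (b * w)) := by
  have hb := h.b_pos
  rw [le_log_iff_exp_le (den_pos h u v w)]
  have h1 := exp_pos (b * u)
  have h2 := exp_pos (b * (1 + v))
  have h3 : 0 ≤ D * exp (b * w) := mul_nonneg h.D_nonneg (exp_pos _).le
  rcases hQ with hP | hP
  · have : exp (b * Q) ≤ exp (b * u) := exp_le_exp.2 (by gcongr)
    linarith
  · have : exp (b * Q) ≤ exp (b * (1 + v)) := exp_le_exp.2 (by gcongr)
    linarith

/-- upper bound for one step -/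
theorem G_le {u v w : ℝ} (P Q : ℝ) (h0 : 0 ≤ P) (hu : u ≤ P) (hw : 9 / 10 + w ≤ P) (hv : v ≤ 5)
    (hQ : Q ≤ u ∨ Q ≤ 1 + v) : G b γ D u v w ≤ P - Q + ε := by
  have hb := h.b_pos
  unfold G
  rw [div_le_iff₀ hb]
  have h1 := num_le h h0 hu hw hv
  have h2 := le_den h (w := w) hQ
  have h3 := h.eps
  linarith [mul_comm b P, mul_comm b Q]

/-- lower bound for one step -/
theorem G_ge {u v w : ℝ} (P Q : ℝ) (hP : P ≤ 0 ∨ P ≤ u ∨ P ≤ 9 / 10 + w) (hu : u ≤ Q)
    (hv : 1 + v ≤ Q) (hw : w - 10 ≤ Q) : P - Q - ε ≤ G b γ D u v w := by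
  have hb := h.b_pos
  unfold G
  rw [le_div_iff₀ hb]
  have h1 := le_num h (v := v) hP
  have h2 := den_le h hu hv hw
  have h3 := h.eps
  linarith [mul_comm b P, mul_comm b Q]

omit h in
/-- continuity -/
theorem G_cont (h : Par b γ D ε) : Continuous (fun p : ℝ × ℝ × ℝ => G b γ D p.1 p.2.1 p.2.2) := by
  unfold G
  refine Continuous.div_const (Continuous.sub (Continuous.log ?_ ?_) (Continuous.log ?_ ?_)) _
  · fun_prop
  · intro p
    exact (num_pos h _ _ _).ne'
  · fun_prop
  · intro p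
    exact (den_pos h _ _ _).ne'

end Pool.Agent.Q191.RR
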